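import Pool.Agent.KS6_49.L8.H688R2.MSR.Defs
import Pool.Agent.KS6_49.L8.H628R2.Forb.Dec

set_option autoImplicit false

/-!
# Maximal strip recovery on two permutations: the algorithm
-/

namespace Pool.Agent.H688R2.MSR

open Pool.Agent.H628R2.Forb (enum)

/-- index of `c` in `G` (correct if `c` occurs exactly once) -/
def pos (G : List ℕ) (c : ℕ) : ℕ := ((G.zipIdx.filter (fun p => decide (p.1 = c))).map (fun p => p.2)).sum

/-- positions in the second genome of the entries of the first one -/
def ysOf (G₁ G₂ : List ℕ) : List ℕ := G₁.map (fun c => pos G₂ c)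

/-- the positions with a smaller position, both in `x` and in `y`, in `L` -/
def next (ys L : List ℕ) : List ℕ :=
  (List.range ys.length).filter (fun x => L.any (fun x' =>
    decide (x' < x) && decide (ys.getD x' 0 < ys.getD x 0)))

/-- level sets: ends of increasing chains with `t + 1` elements -/
def lev (ys : List ℕ) : ℕ → List ℕ
  | 0 => List.range ys.length
  | t + 1 => next ys (lev ys t)

/-- the levels `K, …, 0` -/
def levs (ys : List ℕ) (K : ℕ) : List (List ℕ) :=
  (List.range K).foldl (fun acc _ => next ys (acc.headD []) :: acc) [List.range ys.length]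

/-- the rank of a position, given the list of levels -/
def rk (LL : List (List ℕ)) (x : ℕ) : ℕ := (LL.filter (fun L => decide (x ∈ L))).length

/-- position number `i` of the current state violates a constraint -/
def viol (ys rks : List ℕ) (C : List (ℕ × ℕ)) (ρ p : List ℕ) (i : ℕ) : Bool :=
  (!decide (rks.getD (p.getD i 0) 0 = ρ.getD i 0)) ||
  ((decide (0 < i) && decide (p.getD i 0 ≤ p.getD (i - 1) 0)) ||
  C.any (fun c => decide (c.1 = i) && (decide (rks.getD (p.getD c.2 0) 0 = ρ.getD c.2 0) &&
    decide (ys.getD (p.getD c.2 0) 0 ≤ ys.getD (p.getD i 0) 0))))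

/-- advance the positions that violate a constraint -/
def step (ys rks : List ℕ) (C : List (ℕ × ℕ)) (ρ p : List ℕ) : List ℕ :=
  (List.range ρ.length).map (fun i =>
    if decide (p.getD i 0 < ys.length) && viol ys rks C ρ p i then p.getD i 0 + 1 else p.getD i 0)

/-- the least candidate -/
def fix (ys rks : List ℕ) (C : List (ℕ × ℕ)) (ρ : List ℕ) : List ℕ :=
  (step ys rks C ρ)^[ρ.length * ys.length + 1] (ρ.map (fun _ => 0))

/-- the indices of block number `b` -/
def blk (ls : List ℕ) (M b : ℕ) : List ℕ :=
  (List.range M).filter (fun i => decide ((ls.take b).sum ≤ i) && decide (i < (ls.take (b + 1)).sum))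

/-- the order of the indices in the second genome -/
def sig (ls π : List ℕ) (M : ℕ) : List ℕ := π.flatMap (fun b => blk ls M b)

/-- the constraints for the second genome -/
def cons (ls π : List ℕ) (M : ℕ) : List (ℕ × ℕ) := (sig ls π M).zip (sig ls π M).tail

/-- the pattern is well formed -/
def valid (k : ℕ) (ls π ρ : List ℕ) : Bool :=
  (ls.all (fun l => decide (2 ≤ l)) && decide (ls.sum = ρ.length)) &&
  (decide (k ≤ ρ.length) && (decide (π.length = ls.length) &&
    (List.range ls.length).all (fun b => decide (b ∈ π))))

/-- is there a solution with this pattern? -/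
def test (ys rks : List ℕ) (k : ℕ) (ls π ρ : List ℕ) : Bool :=
  valid k ls π ρ && (List.range ρ.length).all (fun i =>
    decide ((fix ys rks (cons ls π ρ.length) ρ).getD i 0 < ys.length) &&
      !viol ys rks (cons ls π ρ.length) ρ (fix ys rks (cons ls π ρ.length) ρ) i)

/-- the ranks -/
def ranks (ys : List ℕ) (k : ℕ) : List ℕ :=
  (List.range ys.length).map (fun x => rk (levs ys (k + 1)) x)

/-- the algorithm, on the list of positions -/
def solve (ys : List ℕ) (k : ℕ) : Bool :=
  (!((levs ys (k + 1)).headD []).isEmpty) ||
  (enum (List.range (k + 2)) (k + 1)).any (fun ls =>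
    (enum (List.range (k + 2)) (k + 1)).any (fun π =>
      (enum (List.range (k + 2)) (k + 1)).any (fun ρ => test ys (ranks ys k) k ls π ρ)))

/-- the algorithm -/
def msr (a : List ℕ × List ℕ × ℕ) : Bool :=
  decide (a.2.2 ≤ a.1.length) && solve (ysOf a.1 a.2.1) (min a.2.2 (a.1.length + 1))

end Pool.Agent.H688R2.MSR
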