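import Pool.Agent.KS6_49.L8.H688R2.MSR.Lev

set_option autoImplicit false

namespace Pool.Agent.H688R2.MSR

/-- `q` is a list of positions satisfying the constraints of a pattern -/
structure IsSol (ys rks : List ℕ) (C : List (ℕ × ℕ)) (ρ q : List ℕ) : Prop where
  lt : ∀ i < ρ.length, q.getD i 0 < ys.length
  rank : ∀ i < ρ.length, rks.getD (q.getD i 0) 0 = ρ.getD i 0
  inc : ∀ i, 0 < i → i < ρ.length → q.getD (i - 1) 0 < q.getD i 0
  con : ∀ c ∈ C, ys.getD (q.getD c.1 0) 0 < ys.getD (q.getD c.2 0) 0

variable {ys rks ρ p q : List ℕ} {C : List (ℕ × ℕ)}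

lemma viol_false {i : ℕ} : viol ys rks C ρ p i = false ↔
    rks.getD (p.getD i 0) 0 = ρ.getD i 0 ∧ (0 < i → p.getD (i - 1) 0 < p.getD i 0) ∧
    ∀ c ∈ C, c.1 = i → rks.getD (p.getD c.2 0) 0 = ρ.getD c.2 0 →
      ys.getD (p.getD i 0) 0 < ys.getD (p.getD c.2 0) 0 := by
  simp only [viol, Bool.or_eq_false_iff, Bool.not_eq_false', decide_eq_true_eq,
    Bool.and_eq_false_iff, decide_eq_false_iff_not, List.any_eq_false, Bool.and_eq_true, not_and,
    not_le]
  constructor
  · rintro ⟨h1, h2, h3⟩
    refine ⟨h1, fun h => ?_, fun c hc => h3 c hc⟩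
    rcases h2 with h2 | h2
    · exact absurd h h2
    · exact h2
  · rintro ⟨h1, h2, h3⟩
    refine ⟨h1, ?_, fun c hc => h3 c hc⟩
    by_cases h : 0 < i
    · exact Or.inr (h2 h)
    · exact Or.inl h

lemma not_viol_of_eq (hcl : ∀ x x', x < x' → x' < ys.length → rks.getD x 0 = rks.getD x' 0 →
      ys.getD x' 0 ≤ ys.getD x 0)
    (hC : ∀ c ∈ C, c.1 < ρ.length ∧ c.2 < ρ.length) (hq : IsSol ys rks C ρ q)
    (hle : ∀ i < ρ.length, p.getD i 0 ≤ q.getD i 0) {i : ℕ} (hi : i < ρ.length)
    (he : p.getD i 0 = q.getD i 0) : viol ys rks C ρ p i = false := by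
  rw [viol_false]
  refine ⟨by rw [he]; exact hq.rank i hi, fun h => ?_, ?_⟩
  · have h1 := hq.inc i h hi
    have h2 := hle (i - 1) (by omega)
    omega
  · rintro c hc rfl hr
    obtain ⟨-, hc2⟩ := hC c hc
    have h1 := hq.con c hc
    rw [he]
    rcases Nat.lt_or_ge (p.getD c.2 0) (q.getD c.2 0) with h2 | h2
    · have h3 := hcl _ _ h2 (hq.lt c.2 hc2) (by rw [hr, hq.rank c.2 hc2])
      omega
    · have h3 : p.getD c.2 0 = q.getD c.2 0 := le_antisymm (hle c.2 hc2) h2
      rw [h3]; exact h1

lemma step_length : (step ys rks C ρ p).length = ρ.length := by simp [step]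

lemma step_getD {i : ℕ} (hi : i < ρ.length) : (step ys rks C ρ p).getD i 0 =
    if p.getD i 0 < ys.length ∧ viol ys rks C ρ p i = true then p.getD i 0 + 1
    else p.getD i 0 := by
  simp only [step, List.getD_eq_getElem?_getD, List.getElem?_map, List.getElem?_range hi,
    Option.map_some, Option.getD_some, Bool.and_eq_true, decide_eq_true_eq]

lemma step_le (hcl : ∀ x x', x < x' → x' < ys.length → rks.getD x 0 = rks.getD x' 0 →
      ys.getD x' 0 ≤ ys.getD x 0)
    (hC : ∀ c ∈ C, c.1 < ρ.length ∧ c.2 < ρ.length) (hq : IsSol ys rks C ρ q)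
    (hle : ∀ i < ρ.length, p.getD i 0 ≤ q.getD i 0) :
    ∀ i < ρ.length, (step ys rks C ρ p).getD i 0 ≤ q.getD i 0 := by
  intro i hi
  rw [step_getD hi]
  split_ifs with h
  · have h1 := hle i hi
    by_contra h2
    have h3 : p.getD i 0 = q.getD i 0 := by omega
    have := not_viol_of_eq hcl hC hq hle hi h3
    rw [h.2] at this
    exact absurd this (by simp)
  · exact hle i hi

/-- sum of the positions -/
def tot (ρ p : List ℕ) : ℕ := ∑ i ∈ Finset.range ρ.length, p.getD i 0

lemma step_tot (hlt : ∀ i < ρ.length, p.getD i 0 < ys.length)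
    (h : ∃ i < ρ.length, viol ys rks C ρ p i = true) :
    tot ρ p + 1 ≤ tot ρ (step ys rks C ρ p) := by
  obtain ⟨i, hi, hv⟩ := h
  rw [Nat.succ_le_iff, tot, tot]
  refine Finset.sum_lt_sum (fun j hj => ?_) ⟨i, Finset.mem_range.2 hi, ?_⟩
  · rw [Finset.mem_range] at hj
    rw [step_getD hj]
    split_ifs <;> omega
  · rw [step_getD hi, if_pos ⟨hlt i hi, hv⟩]
    omega

lemma step_fixed (hlen : p.length = ρ.length)
    (h : ∀ i < ρ.length, viol ys rks C ρ p i = false) : step ys rks C ρ p = p := by
  apply List.ext_getElem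
  · rw [step_length, hlen]
  · intro i h1 h2
    rw [step_length] at h1
    have h3 := step_getD (ys := ys) (rks := rks) (C := C) (p := p) h1
    rw [if_neg (by rw [h i h1]; simp)] at h3
    simpa [List.getD_eq_getElem?_getD, h2, step_length, h1] using h3

lemma fix_spec (hcl : ∀ x x', x < x' → x' < ys.length → rks.getD x 0 = rks.getD x' 0 →
      ys.getD x' 0 ≤ ys.getD x 0)
    (hC : ∀ c ∈ C, c.1 < ρ.length ∧ c.2 < ρ.length) (hq : IsSol ys rks C ρ q) :
    ∀ i < ρ.length, (fix ys rks C ρ).getD i 0 < ys.length ∧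
      viol ys rks C ρ (fix ys rks C ρ) i = false := by
  set P : ℕ → List ℕ := fun t => (step ys rks C ρ)^[t] (ρ.map (fun _ => 0)) with hP
  have hP0 : P 0 = ρ.map (fun _ => 0) := rfl
  have hPs : ∀ t, P (t + 1) = step ys rks C ρ (P t) := fun t => Function.iterate_succ_apply' _ _ _
  have hle : ∀ t, ∀ i < ρ.length, (P t).getD i 0 ≤ q.getD i 0 := by
    intro t
    induction t with
    | zero =>
      intro i hi
      rw [hP0]
      simp [List.getD_eq_getElem?_getD, hi]
    | succ t ih =>
      rw [hPs]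
      exact step_le hcl hC hq ih
  have hlen : ∀ t, (P t).length = ρ.length := by
    intro t
    cases t with
    | zero => rw [hP0]; simp
    | succ t => rw [hPs, step_length]
  have hlt : ∀ t, ∀ i < ρ.length, (P t).getD i 0 < ys.length := fun t i hi =>
    (hle t i hi).trans_lt (hq.lt i hi)
  have hfix : fix ys rks C ρ = P (ρ.length * ys.length + 1) := rfl
  rw [hfix]
  set T := ρ.length * ys.length + 1 with hT
  by_cases hv : ∀ i < ρ.length, viol ys rks C ρ (P T) i = false
  · exact fun i hi => ⟨hlt T i hi, hv i hi⟩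
  · exfalso
    have hbad : ∀ t ≤ T, ∃ i < ρ.length, viol ys rks C ρ (P t) i = true := by
      intro t ht
      by_contra hno
      push Not at hno
      have hno' : ∀ i < ρ.length, viol ys rks C ρ (P t) i = false := by
        intro i hi
        have := hno i hi
        simpa using this
      have hst : ∀ s, P (t + s) = P t := by
        intro s
        induction s with
        | zero => rfl
        | succ s ih => rw [← Nat.add_assoc, hPs, ih]; exact step_fixed (hlen t) hno'
      have h1 := hst (T - t)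
      rw [show t + (T - t) = T by omega] at h1
      exact hv (by rw [h1]; exact hno')
    have htot : ∀ t ≤ T, t ≤ tot ρ (P t) := by
      intro t
      induction t with
      | zero => intro _; exact Nat.zero_le _
      | succ t ih =>
        intro ht
        have h1 := step_tot (hlt t) (hbad t (by omega))
        rw [← hPs] at h1
        have h2 := ih (by omega)
        omega
    have h1 := htot T le_rfl
    have h2 : tot ρ (P T) ≤ ρ.length * ys.length := by
      have : tot ρ (P T) ≤ ∑ i ∈ Finset.range ρ.length, ys.length :=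
        Finset.sum_le_sum fun i hi => (hlt T i (Finset.mem_range.1 hi)).le
      simpa using this
    omega

end Pool.Agent.H688R2.MSR
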