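import Pool.Agent.KS6_49.L8.H688R2.MSR.Lists
import Pool.Agent.KS6_49.L8.H688R2.MSR.Fix

set_option autoImplicit false

namespace Pool.Agent.H688R2.MSR

open Pool.Agent.H628R2.Forb (enum mem_enum)

lemma ysOf_length (G₁ G₂ : List ℕ) : (ysOf G₁ G₂).length = G₁.length := by simp [ysOf]

lemma ysOf_getD {G₁ G₂ : List ℕ} {x : ℕ} (hx : x < G₁.length) :
    (ysOf G₁ G₂).getD x 0 = pos G₂ (G₁.getD x 0) := by
  simp [ysOf, List.getD_eq_getElem?_getD, hx]

lemma valid_iff {k : ℕ} {ls π ρ : List ℕ} : valid k ls π ρ = true ↔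
    (∀ l ∈ ls, 2 ≤ l) ∧ ls.sum = ρ.length ∧ k ≤ ρ.length ∧ π.length = ls.length ∧
      ∀ b < ls.length, b ∈ π := by
  simp only [valid, Bool.and_eq_true, List.all_eq_true, decide_eq_true_eq, List.mem_range]
  tauto

lemma perm_range {π : List ℕ} {m : ℕ} (h1 : π.length = m) (h2 : ∀ b < m, b ∈ π) :
    π.Perm (List.range m) := by
  have hsub : (List.range m).Subperm π :=
    List.subperm_of_subset List.nodup_range (fun x hx => h2 x (List.mem_range.1 hx))
  exact (hsub.perm_of_length_le (by simp [h1])).symm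

/-- a solution of a valid pattern gives a solution of strip recovery -/
lemma sound_pattern {G₁ G₂ : List ℕ} (hG₂ : G₂.Nodup) (hsub : ∀ c ∈ G₁, c ∈ G₂)
    {k : ℕ} {ls π ρ p : List ℕ} (hv : valid k ls π ρ = true)
    (hlt : ∀ i < ρ.length, p.getD i 0 < G₁.length)
    (hinc : ∀ i, 0 < i → i < ρ.length → p.getD (i - 1) 0 < p.getD i 0)
    (hcon : ∀ c ∈ cons ls π ρ.length,
      (ysOf G₁ G₂).getD (p.getD c.1 0) 0 < (ysOf G₁ G₂).getD (p.getD c.2 0) 0) :
    StripRecovery G₁ G₂ k := by
  obtain ⟨v1, v2, v3, v4, v5⟩ := valid_iff.1 hv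
  set M := ρ.length with hM
  set m := ls.length with hm
  have hπ : π.Perm (List.range m) := perm_range v4 v5
  have hfl := flatMap_blk (M := M) (ls := ls) v2.le m
  have hta : ls.take m = ls := by rw [hm]; exact List.take_length
  rw [hta, v2] at hfl
  set g : ℕ → ℕ := fun i => G₁.getD (p.getD i 0) 0 with hg
  set blkc : ℕ → List ℕ := fun b => (blk ls M b).map g with hblkc
  have hσM : ∀ i ∈ sig ls π M, i < M := by
    intro i hi
    rw [sig, List.mem_flatMap] at hi
    obtain ⟨b, -, hi⟩ := hi
    simp only [blk, List.mem_filter, List.mem_range] at hi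
    exact hi.1
  refine ⟨(List.range M).map g, (sig ls π M).map g, ?_, ?_, ?_, ?_⟩
  · -- first genome
    have h1 : (List.range M).map g =
        ((List.range M).map (fun i => p.getD i 0)).map (fun x => G₁.getD x 0) := by
      rw [List.map_map]; rfl
    rw [h1]
    apply sublist_of_increasing
    · rw [List.pairwise_map]
      have hmono : ∀ i j, i < j → j < M → p.getD i 0 < p.getD j 0 := by
        intro i j hij
        induction j with
        | zero => omega
        | succ j ih =>
          intro hj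
          have h2 := hinc (j + 1) (by omega) hj
          rw [Nat.add_sub_cancel] at h2
          rcases Nat.lt_or_ge i j with h3 | h3
          · exact (ih h3 (by omega)).trans h2
          · have : i = j := by omega
            subst this; exact h2
      refine List.Pairwise.imp_of_mem ?_ (List.pairwise_lt_range (n := M))
      intro a b _ hb hab
      exact hmono a b hab (List.mem_range.1 hb)
    · intro x hx
      rw [List.mem_map] at hx
      obtain ⟨i, hi, rfl⟩ := hx
      exact hlt i (List.mem_range.1 hi)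
  · -- second genome
    have hmemG : ∀ i < M, g i ∈ G₂ := by
      intro i hi
      apply hsub
      rw [hg]
      simp only [List.getD_eq_getElem?_getD]
      have := hlt i hi
      rw [List.getD_eq_getElem?_getD] at this
      rw [List.getElem?_eq_getElem this]
      exact List.getElem_mem _
    have h1 : (sig ls π M).map g =
        ((sig ls π M).map (fun i => pos G₂ (g i))).map (fun x => G₂.getD x 0) := by
      rw [List.map_map]
      apply List.map_congr_left
      intro i hi
      exact ((pos_spec hG₂ (hmemG i (hσM i hi))).2).symm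
    rw [h1]
    apply sublist_of_increasing
    · haveI : IsTrans ℕ (fun a b => pos G₂ (g a) < pos G₂ (g b)) := ⟨fun _ _ _ h h' => h.trans h'⟩
      rw [List.pairwise_map, ← List.isChain_iff_pairwise, ← zip_tail_iff]
      intro c hc
      have h2 := hcon c hc
      have hc1 : c.1 < M := hσM _ (List.of_mem_zip (l₁ := sig ls π M) (a := c.1) (b := c.2) hc).1
      have hc2 : c.2 < M := hσM _ (List.mem_of_mem_tail
        (List.of_mem_zip (l₁ := sig ls π M) (a := c.1) (b := c.2) hc).2)
      rw [ysOf_getD (hlt _ hc1), ysOf_getD (hlt _ hc2)] at h2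
      exact h2
    · intro x hx
      rw [List.mem_map] at hx
      obtain ⟨i, hi, rfl⟩ := hx
      exact (pos_spec hG₂ (hmemG i (hσM i hi))).1
  · -- the blocks
    refine ⟨(List.range m).map blkc, π.map blkc, ?_, hπ.map _, ?_, ?_⟩
    · intro b hb
      rw [List.mem_map] at hb
      obtain ⟨j, hj, rfl⟩ := hb
      rw [List.mem_range] at hj
      rw [hblkc]
      simp only [List.length_map]
      rw [blk_eq v2.le, List.length_range']
      apply v1
      rw [List.getD_eq_getElem?_getD, List.getElem?_eq_getElem hj]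
      exact List.getElem_mem _
    · rw [← hfl, List.map_flatMap, List.flatMap_def]
    · rw [sig, List.map_flatMap, List.flatMap_def]
  · simpa using v3

lemma test_iff {ys rks : List ℕ} {k : ℕ} {ls π ρ : List ℕ} : test ys rks k ls π ρ = true ↔
    valid k ls π ρ = true ∧ ∀ i < ρ.length,
      (fix ys rks (cons ls π ρ.length) ρ).getD i 0 < ys.length ∧
      viol ys rks (cons ls π ρ.length) ρ (fix ys rks (cons ls π ρ.length) ρ) i = false := by
  simp only [test, Bool.and_eq_true, List.all_eq_true, List.mem_range, decide_eq_true_eq,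
    Bool.not_eq_true']

lemma sound_test {G₁ G₂ : List ℕ} (hG₂ : G₂.Nodup) (hsub : ∀ c ∈ G₁, c ∈ G₂)
    {k : ℕ} {rks ls π ρ : List ℕ} (h : test (ysOf G₁ G₂) rks k ls π ρ = true) :
    StripRecovery G₁ G₂ k := by
  obtain ⟨hv, h2⟩ := test_iff.1 h
  have hlt : ∀ i < ρ.length, (fix (ysOf G₁ G₂) rks (cons ls π ρ.length) ρ).getD i 0 < G₁.length := by
    intro i hi
    rw [← ysOf_length G₁ G₂]; exact (h2 i hi).1
  have hσM : ∀ i ∈ sig ls π ρ.length, i < ρ.length := by
    intro i hi
    rw [sig, List.mem_flatMap] at hi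
    obtain ⟨b, -, hi⟩ := hi
    simp only [blk, List.mem_filter, List.mem_range] at hi
    exact hi.1
  refine sound_pattern hG₂ hsub hv hlt ?_ ?_
  · intro i hi hi'
    exact (viol_false.1 (h2 i hi').2).2.1 hi
  · intro c hc
    have hc1 : c.1 < ρ.length := hσM _
      (List.of_mem_zip (l₁ := sig ls π ρ.length) (a := c.1) (b := c.2) hc).1
    have hc2 : c.2 < ρ.length := hσM _ (List.mem_of_mem_tail
      (List.of_mem_zip (l₁ := sig ls π ρ.length) (a := c.1) (b := c.2) hc).2)
    exact (viol_false.1 (h2 c.1 hc1).2).2.2 c hc rfl (viol_false.1 (h2 c.2 hc2).2).1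

/-- a long increasing chain is a strip -/
lemma sound_chain {G₁ G₂ : List ℕ} (hG₂ : G₂.Nodup) (hsub : ∀ c ∈ G₁, c ∈ G₂)
    {k x : ℕ} (h : x ∈ lev (ysOf G₁ G₂) (k + 1)) : StripRecovery G₁ G₂ k := by
  obtain ⟨c, hc1, hc2, hc3⟩ := chain_of_lev _ _ h
  set L := (x :: c).reverse with hL
  have hLp : L.Pairwise (fun a b => a < b ∧ (ysOf G₁ G₂).getD a 0 < (ysOf G₁ G₂).getD b 0) := by
    rw [hL, List.pairwise_reverse]; exact hc2
  have hLlt : ∀ a ∈ L, a < G₁.length := by
    intro a ha
    rw [← ysOf_length G₁ G₂]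
    exact hc3 a (by rw [hL, List.mem_reverse] at ha; exact ha)
  have hLlen : L.length = k + 2 := by rw [hL, List.length_reverse, hc1]
  have hmemG : ∀ a ∈ L, G₁.getD a 0 ∈ G₂ := by
    intro a ha
    apply hsub
    rw [List.getD_eq_getElem?_getD, List.getElem?_eq_getElem (hLlt a ha)]
    exact List.getElem_mem _
  refine ⟨L.map (fun a => G₁.getD a 0), L.map (fun a => G₁.getD a 0), ?_, ?_, ?_, ?_⟩
  · exact sublist_of_increasing (hLp.imp fun h => h.1) hLlt
  · have h1 : L.map (fun a => G₁.getD a 0) =
        (L.map (fun a => (ysOf G₁ G₂).getD a 0)).map (fun x => G₂.getD x 0) := by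
      rw [List.map_map]
      apply List.map_congr_left
      intro a ha
      simp only [Function.comp]
      rw [ysOf_getD (hLlt a ha)]
      exact ((pos_spec hG₂ (hmemG a ha)).2).symm
    rw [h1]
    apply sublist_of_increasing
    · rw [List.pairwise_map]; exact hLp.imp fun h => h.2
    · intro y hy
      rw [List.mem_map] at hy
      obtain ⟨a, ha, rfl⟩ := hy
      rw [ysOf_getD (hLlt a ha)]
      exact (pos_spec hG₂ (hmemG a ha)).1
  · refine ⟨[L.map (fun a => G₁.getD a 0)], [L.map (fun a => G₁.getD a 0)], ?_, List.Perm.refl _,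
      by simp, by simp⟩
    intro b hb
    rw [List.mem_singleton] at hb
    subst hb
    simp [hLlen]
  · simp [hLlen]

/-- a solution of strip recovery gives a pattern -/
lemma complete {G₁ G₂ : List ℕ} (hG₁ : G₁.Nodup) (hG₂ : G₂.Nodup)
    {k : ℕ} (h : StripRecovery G₁ G₂ k) (hK : lev (ysOf G₁ G₂) (k + 1) = []) :
    ∃ ls ∈ enum (List.range (k + 2)) (k + 1), ∃ π ∈ enum (List.range (k + 2)) (k + 1),
      ∃ ρ ∈ enum (List.range (k + 2)) (k + 1),
        test (ysOf G₁ G₂) (ranks (ysOf G₁ G₂) k) k ls π ρ = true := by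
  obtain ⟨S₁, S₂, hS₁, hS₂, ⟨B₀, B₀', hB₀, hp₀, rfl, rfl⟩, hk₀⟩ := h
  obtain ⟨B, B', hB, hp, hs1, hs2, hk, hk1⟩ := trim _ B₀ B₀' hB₀ hp₀ hS₁ hS₂ hk₀ le_rfl
  clear hS₁ hS₂ hB₀ hp₀ hk₀ B₀ B₀'
  obtain ⟨π, hπ, hπ'⟩ := exists_order hp
  set S := B.flatten with hS
  set M := S.length with hM
  set ls := B.map List.length with hls
  set m := B.length with hm
  set ys := ysOf G₁ G₂ with hys
  set q := S.map (pos G₁) with hq
  set ρ := q.map (fun x => (ranks ys k).getD x 0) with hρ
  have hlsm : ls.length = m := by simp [hls, hm]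
  have hsum : ls.sum = M := by rw [hM, hS, List.length_flatten]
  have hρM : ρ.length = M := by simp [hρ, hq, hM]
  have hqM : q.length = M := by simp [hq, hM]
  have hSG : ∀ c ∈ S, c ∈ G₁ := fun c hc => hs1.subset hc
  have hyl : ys.length = G₁.length := ysOf_length _ _
  have hqd : ∀ i < M, ∃ c ∈ S, S.getD i 0 = c ∧ q.getD i 0 = pos G₁ c := by
    intro i hi
    refine ⟨S[i], List.getElem_mem _, ?_, ?_⟩
    · rw [List.getD_eq_getElem?_getD, List.getElem?_eq_getElem hi]; rfl
    · rw [hq, List.getD_eq_getElem?_getD, List.getElem?_map, List.getElem?_eq_getElem hi]; rfl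
  have hqlt : ∀ i < M, q.getD i 0 < ys.length := by
    intro i hi
    obtain ⟨c, hc, -, h2⟩ := hqd i hi
    rw [h2, hyl]; exact (pos_spec hG₁ (hSG c hc)).1
  have hyq : ∀ i < M, ys.getD (q.getD i 0) 0 = pos G₂ (S.getD i 0) := by
    intro i hi
    obtain ⟨c, hc, h1, h2⟩ := hqd i hi
    rw [h2, h1, hys, ysOf_getD (pos_spec hG₁ (hSG c hc)).1, (pos_spec hG₁ (hSG c hc)).2]
  -- blocks
  have hblk : ∀ b < m, (blk ls M b).map (fun i => S.getD i 0) = B.getD b [] := by
    intro b hb
    have hbB : b < B.length := hb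
    rw [blk_eq hsum.le]
    have e1 : ls.getD b 0 = (B.getD b []).length := by
      simp [hls, List.getD_eq_getElem?_getD, hbB]
    have e2 : B = B.take b ++ B.getD b [] :: B.drop (b + 1) := by
      rw [List.getD_eq_getElem?_getD, List.getElem?_eq_getElem hbB, Option.getD_some,
        List.cons_getElem_drop_succ, List.take_append_drop]
    have e3 : (ls.take b).sum = (B.take b).flatten.length := by
      rw [hls, ← List.map_take, List.length_flatten]
    have e4 : S = (B.take b).flatten ++ (B.getD b [] ++ (B.drop (b + 1)).flatten) := by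
      conv_lhs => rw [hS, e2]
      rw [List.flatten_append, List.flatten_cons]
    apply List.ext_getElem
    · rw [List.length_map, List.length_range', e1]
    · intro i h1 h2
      rw [List.getElem_map, List.getElem_range', e3, List.getD_eq_getElem?_getD, e4]
      rw [Nat.one_mul, List.getElem?_append_right (by omega), Nat.add_sub_cancel_left,
        List.getElem?_append_left h2, List.getElem?_eq_getElem h2]
      rfl
  have hπm : ∀ b ∈ π, b < m := fun b hb => List.mem_range.1 (hπ.mem_iff.1 hb)
  have hσM : ∀ i ∈ sig ls π M, i < M := by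
    intro i hi
    rw [sig, List.mem_flatMap] at hi
    obtain ⟨b, -, hi⟩ := hi
    simp only [blk, List.mem_filter, List.mem_range] at hi
    exact hi.1
  have hB'σ : B'.flatten = (sig ls π M).map (fun i => S.getD i 0) := by
    rw [hπ', sig, List.map_flatMap, List.flatMap_def]
    congr 1
    apply List.map_congr_left
    intro b hb
    exact (hblk b (hπm b hb)).symm
  have hsol : IsSol ys (ranks ys k) (cons ls π ρ.length) ρ q := by
    refine ⟨?_, ?_, ?_, ?_⟩
    · intro i hi; exact hqlt i (by omega)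
    · intro i hi
      rw [hρM] at hi
      rw [hρ, List.getD_eq_getElem?_getD (l := List.map _ q), List.getElem?_map,
        List.getElem?_eq_getElem (by omega), Option.map_some, Option.getD_some,
        List.getD_eq_getElem?_getD (l := q), List.getElem?_eq_getElem (by omega), Option.getD_some]
    · intro i hi hi'
      rw [hρM] at hi'
      have h1 : q.Pairwise (· < ·) := map_pos_pairwise hG₁ hs1
      have h2 := List.pairwise_iff_getElem.1 h1 (i - 1) i (by omega) (by omega) (by omega)
      rw [List.getD_eq_getElem?_getD, List.getD_eq_getElem?_getD,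
        List.getElem?_eq_getElem (by omega), List.getElem?_eq_getElem (by omega)]
      exact h2
    · rw [hρM]
      intro c hc
      have hc1 : c.1 < M := hσM _ (List.of_mem_zip (l₁ := sig ls π M) (a := c.1) (b := c.2) hc).1
      have hc2 : c.2 < M := hσM _ (List.mem_of_mem_tail
        (List.of_mem_zip (l₁ := sig ls π M) (a := c.1) (b := c.2) hc).2)
      rw [hyq _ hc1, hyq _ hc2]
      have h1 : (B'.flatten.map (pos G₂)).Pairwise (· < ·) := map_pos_pairwise hG₂ hs2
      rw [hB'σ, List.map_map, List.pairwise_map] at h1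
      have h2 := (zip_tail_iff (fun a b => pos G₂ (S.getD a 0) < pos G₂ (S.getD b 0))
        (sig ls π M)).2 h1.isChain
      exact h2 c hc
  have hcl : ∀ x x', x < x' → x' < ys.length → (ranks ys k).getD x 0 = (ranks ys k).getD x' 0 →
      ys.getD x' 0 ≤ ys.getD x 0 := by
    intro x x' h1 h2 h3
    rw [ranks_getD (h1.trans h2), ranks_getD h2] at h3
    exact class_decr h1 h2 hK h3
  have hC : ∀ c ∈ cons ls π ρ.length, c.1 < ρ.length ∧ c.2 < ρ.length := by
    rw [hρM]
    intro c hc
    exact ⟨hσM _ (List.of_mem_zip (l₁ := sig ls π M) (a := c.1) (b := c.2) hc).1,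
      hσM _ (List.mem_of_mem_tail
        (List.of_mem_zip (l₁ := sig ls π M) (a := c.1) (b := c.2) hc).2)⟩
  have hms : m ≤ M := by
    have : ∀ B : List (List ℕ), (∀ b ∈ B, 2 ≤ b.length) → B.length ≤ B.flatten.length := by
      intro B
      induction B with
      | nil => simp
      | cons b B ih =>
        intro h
        have h1 := h b (by simp)
        have h2 := ih (fun c hc => h c (by simp [hc]))
        rw [List.flatten_cons, List.length_append, List.length_cons]
        omega
    exact this B hB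
  refine ⟨ls, ?_, π, ?_, ρ, ?_, ?_⟩
  · rw [mem_enum]
    refine ⟨by omega, fun x hx => ?_⟩
    rw [List.mem_range]
    have := List.single_le_sum (l := ls) (by simp) x hx
    omega
  · rw [mem_enum]
    refine ⟨by rw [hπ.length_eq, List.length_range]; omega, fun x hx => ?_⟩
    rw [List.mem_range]
    have := hπm x hx
    omega
  · rw [mem_enum]
    refine ⟨by omega, fun x hx => ?_⟩
    rw [hρ, List.mem_map] at hx
    obtain ⟨y, hy, rfl⟩ := hx
    rw [List.mem_range]
    have hy' : y < ys.length := by
      rw [hq, List.mem_map] at hy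
      obtain ⟨c, hc, rfl⟩ := hy
      rw [hyl]; exact (pos_spec hG₁ (hSG c hc)).1
    rw [ranks_getD hy']
    have := rk_lt (x := y) hK
    omega
  · rw [test_iff, valid_iff]
    refine ⟨⟨?_, by omega, by omega, ?_, ?_⟩, fix_spec hcl hC hsol⟩
    · intro l hl
      rw [hls, List.mem_map] at hl
      obtain ⟨b, hb, rfl⟩ := hl
      exact hB b hb
    · rw [hπ.length_eq, List.length_range, hlsm]
    · intro b hb
      rw [hlsm] at hb
      exact hπ.mem_iff.2 (List.mem_range.2 hb)

lemma solve_iff {G₁ G₂ : List ℕ} (hG₁ : G₁.Nodup) (hperm : G₁.Perm G₂) (k : ℕ) :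
    solve (ysOf G₁ G₂) k = true ↔ StripRecovery G₁ G₂ k := by
  have hG₂ : G₂.Nodup := hperm.nodup_iff.1 hG₁
  have hsub : ∀ c ∈ G₁, c ∈ G₂ := fun c hc => hperm.mem_iff.1 hc
  rw [solve, levs_head, Bool.or_eq_true]
  constructor
  · rintro (h | h)
    · rw [Bool.not_eq_true', List.isEmpty_eq_false_iff_exists_mem] at h
      obtain ⟨x, hx⟩ := h
      exact sound_chain hG₂ hsub hx
    · simp only [List.any_eq_true] at h
      obtain ⟨ls, -, π, -, ρ, -, h⟩ := h
      exact sound_test hG₂ hsub h
  · intro h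
    by_cases hK : lev (ysOf G₁ G₂) (k + 1) = []
    · right
      obtain ⟨ls, h1, π, h2, ρ, h3, h4⟩ := complete hG₁ hG₂ h hK
      simp only [List.any_eq_true]
      exact ⟨ls, h1, π, h2, ρ, h3, h4⟩
    · left
      simpa using hK

lemma msr_iff {G₁ G₂ : List ℕ} (hG₁ : G₁.Nodup) (hperm : G₁.Perm G₂) (k : ℕ) :
    msr (G₁, G₂, k) = true ↔ StripRecovery G₁ G₂ k := by
  rw [msr, Bool.and_eq_true, decide_eq_true_eq]
  simp only
  constructor
  · rintro ⟨h1, h2⟩
    rw [min_eq_left (by omega)] at h2
    exact (solve_iff hG₁ hperm k).1 h2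
  · intro h
    have h1 : k ≤ G₁.length := by
      obtain ⟨S₁, S₂, h1, -, -, h4⟩ := h
      exact h4.trans h1.length_le
    refine ⟨h1, ?_⟩
    rw [min_eq_left (by omega)]
    exact (solve_iff hG₁ hperm k).2 h

end Pool.Agent.H688R2.MSR
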