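import Pool.Agent.KS6_49.L8.H688R2.MSR.Alg
import Pool.Agent.KS6_49.L8.H671R2.PolyAuto
import Pool.Agent.KS6_49.L8.H628R2.Forb.PolyF

set_option autoImplicit false

namespace Pool.Agent.H688R2.MSR

open Pool.Agent.NPC
open Pool.Agent.NPC.H628F (p_take p_enum sz_sublist)
open Pool.Agent.H628R2.Forb (enum)

variable {α β : Type} [TEnc α] [TEnc β]

@[fun_prop]
theorem p_rangeLen {l : α → List β} (hl : Poly l) : Poly (fun a => List.range (l a).length) :=
  (UPoly.length hl).range

attribute [local fun_prop] p_take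

theorem p_pos {G : α → List ℕ} {c : α → ℕ} (hG : Poly G) (hc : Poly c) :
    Poly (fun a => pos (G a) (c a)) := by
  unfold pos; fun_prop

theorem p_ysOf {G G' : α → List ℕ} (hG : Poly G) (hG' : Poly G') :
    Poly (fun a => ysOf (G a) (G' a)) := by
  unfold ysOf
  refine NPC.Poly.map (F := fun a c => pos (G' a) c) hG ?_
  exact p_pos (hG'.comp (Poly.fst Poly.id)) (Poly.snd Poly.id)

theorem p_next {ys L : α → List ℕ} (hys : Poly ys) (hL : Poly L) :
    Poly (fun a => next (ys a) (L a)) := by
  unfold next; fun_prop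

lemma next_sz (ys L : List ℕ) : sz (next ys L) ≤ sz (List.range ys.length) :=
  sz_sublist List.filter_sublist

theorem p_levs {ys : α → List ℕ} {K : α → ℕ} (hys : Poly ys) (hK : UPoly K) :
    Poly (fun a => levs (ys a) (K a)) := by
  have hr : Poly (fun a => List.range (ys a).length) := p_rangeLen hys
  obtain ⟨r, hr'⟩ := hr.sz_le
  obtain ⟨s, hs⟩ := H628F.UPoly.le hK
  refine Poly.foldl (l := fun a => List.range (K a)) (s := fun a => [List.range (ys a).length])
    (F := fun a acc _ => next (ys a) (acc.headD []) :: acc) hK.range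
    (Poly.cons hr (NPC.Poly.const [])) ?_ ((s + Polynomial.C 1) * (r + Polynomial.C 1) + Polynomial.C 1)
    ?_
  · refine Poly.cons (p_next (hys.comp (Poly.fst Poly.id)) ?_) (Poly.fst (Poly.snd Poly.id))
    have h1 : Poly (fun x : α × List (List ℕ) × ℕ => x.2.1.head?.getD []) :=
      Poly.optGetD (Poly.head? (Poly.fst (Poly.snd Poly.id))) (NPC.Poly.const [])
    exact h1.congr fun x => by cases x.2.1 <;> rfl
  · intro a k hk
    rw [List.length_range] at hk
    rw [List.take_range, Nat.min_eq_left hk]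
    have key : ∀ m, ((List.range m).foldl (fun acc _ => next (ys a) (acc.headD []) :: acc)
        [List.range (ys a).length]).length = m + 1 ∧
        ∀ L ∈ (List.range m).foldl (fun acc _ => next (ys a) (acc.headD []) :: acc)
        [List.range (ys a).length], sz L ≤ sz (List.range (ys a).length) := by
      intro m
      induction m with
      | zero => simp
      | succ m ih =>
        rw [List.range_succ, List.foldl_append]
        simp only [List.foldl_cons, List.foldl_nil, List.length_cons, List.mem_cons,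
          forall_eq_or_imp]
        exact ⟨by rw [ih.1], next_sz _ _, ih.2⟩
    obtain ⟨h1, h2⟩ := key k
    refine (sz_le_length_mul _ _ h2).trans ?_
    rw [h1]
    have h3 := hr' a
    have h4 := hs a
    simp only [Polynomial.eval_add, Polynomial.eval_mul, Polynomial.eval_C]
    have : (k + 1) * (sz (List.range (ys a).length) + 1) ≤
        (s.eval (sz a) + 1) * (r.eval (sz a) + 1) := Nat.mul_le_mul (by omega) (by omega)
    omega

theorem p_ranks {ys : α → List ℕ} {k : α → ℕ} (hys : Poly ys) (hk : UPoly k) :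
    Poly (fun a => ranks (ys a) (k a)) := by
  have h1 : Poly (fun a => levs (ys a) (k a + 1)) := p_levs hys (UPoly.add hk (UPoly.const 1))
  unfold ranks rk
  refine NPC.Poly.map (F := fun a x => ((levs (ys a) (k a + 1)).filter
    (fun L => decide (x ∈ L))).length) (p_rangeLen hys) ?_
  have h2 := h1.comp (Poly.fst (α := α × ℕ) Poly.id)
  refine Poly.length (Poly.filter (p := fun (y : α × ℕ) (L : List ℕ) => decide (y.2 ∈ L)) h2 ?_)
  fun_prop

theorem p_viol {ys rks ρ p : α → List ℕ} {C : α → List (ℕ × ℕ)} {i : α → ℕ} (hys : Poly ys)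
    (hrks : Poly rks) (hC : Poly C) (hρ : Poly ρ) (hp : Poly p) (hi : Poly i) :
    Poly (fun a => viol (ys a) (rks a) (C a) (ρ a) (p a) (i a)) := by
  unfold viol; fun_prop

theorem p_step {ys rks ρ p : α → List ℕ} {C : α → List (ℕ × ℕ)} (hys : Poly ys)
    (hrks : Poly rks) (hC : Poly C) (hρ : Poly ρ) (hp : Poly p) :
    Poly (fun a => step (ys a) (rks a) (C a) (ρ a) (p a)) := by
  unfold step
  refine NPC.Poly.map (F := fun a i => if decide ((p a).getD i 0 < (ys a).length) &&
    viol (ys a) (rks a) (C a) (ρ a) (p a) i then (p a).getD i 0 + 1 else (p a).getD i 0)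
    (p_rangeLen hρ) ?_
  have f1 : Poly (fun x : α × ℕ => x.1) := Poly.fst Poly.id
  have h1 : Poly (fun x : α × ℕ => viol (ys x.1) (rks x.1) (C x.1) (ρ x.1) (p x.1) x.2) :=
    p_viol (hys.comp f1) (hrks.comp f1) (hC.comp f1) (hρ.comp f1) (hp.comp f1) (Poly.snd Poly.id)
  have h2 : Poly (fun x : α × ℕ => (p x.1).getD x.2 0) :=
    Poly.getD (hp.comp f1) (Poly.snd Poly.id) (NPC.Poly.const 0)
  have h3 : Poly (fun x : α × ℕ => decide ((p x.1).getD x.2 0 < (ys x.1).length)) :=
    Poly.decide_lt h2 (Poly.length (hys.comp f1))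
  have h4 := Poly.cond (Poly.and h3 h1) h2.succ h2
  exact h4.congr fun x => by cases (decide ((p x.1).getD x.2 0 < (ys x.1).length) &&
    viol (ys x.1) (rks x.1) (C x.1) (ρ x.1) (p x.1) x.2) <;> rfl

lemma fix_bound (ys rks : List ℕ) (C : List (ℕ × ℕ)) (ρ : List ℕ) (t : ℕ) :
    ((step ys rks C ρ)^[t] (ρ.map (fun _ => 0))).length = ρ.length ∧
      ∀ i, ((step ys rks C ρ)^[t] (ρ.map (fun _ => 0))).getD i 0 ≤ ys.length := by
  induction t with
  | zero =>
    refine ⟨by simp, fun i => ?_⟩
    simp only [Function.iterate_zero, id, List.getD_eq_getElem?_getD, List.getElem?_map]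
    cases ρ[i]? <;> simp
  | succ t ih =>
    rw [Function.iterate_succ_apply']
    refine ⟨by simp [step], fun i => ?_⟩
    by_cases hi : i < ρ.length
    · simp only [step, List.getD_eq_getElem?_getD, List.getElem?_map, List.getElem?_range hi,
        Option.map_some, Option.getD_some]
      have h := ih.2 i
      rw [List.getD_eq_getElem?_getD] at h
      split_ifs with h1
      · rw [Bool.and_eq_true, decide_eq_true_eq] at h1
        exact h1.1
      · exact h
    · rw [List.getD_eq_getElem?_getD, List.getElem?_eq_none (by simp [step]; omega)]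
      simp

theorem p_fix {ys rks ρ : α → List ℕ} {C : α → List (ℕ × ℕ)} (hys : Poly ys)
    (hrks : Poly rks) (hC : Poly C) (hρ : Poly ρ) :
    Poly (fun a => fix (ys a) (rks a) (C a) (ρ a)) := by
  have hu : UPoly (fun a => (ρ a).length * (ys a).length + 1) :=
    UPoly.add (UPoly.mul (UPoly.length hρ) (UPoly.length hys)) (UPoly.const 1)
  have hs : Poly (fun a => (ρ a).map (fun _ => 0)) :=
    NPC.Poly.map (F := fun _ _ => 0) hρ (NPC.Poly.const 0)
  obtain ⟨r, hr⟩ := (Poly.length hys).sz_le
  obtain ⟨s, hs'⟩ := H628F.UPoly.le (UPoly.length hρ)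
  have f1 : Poly (fun x : α × List ℕ => x.1) := Poly.fst Poly.id
  have h := Poly.iterLen (l := fun a => List.replicate ((ρ a).length * (ys a).length + 1) ())
    (s := fun a => (ρ a).map (fun _ => 0)) (F := fun a p => step (ys a) (rks a) (C a) (ρ a) p)
    hu hs (p_step (hys.comp f1) (hrks.comp f1) (hC.comp f1) (hρ.comp f1) (Poly.snd Poly.id))
    (s * (Polynomial.C 2 * r + Polynomial.C 1) + Polynomial.C 1) ?_
  · exact h.congr fun a => by simp [fix]
  · intro a k _
    obtain ⟨h1, h2⟩ := fix_bound (ys a) (rks a) (C a) (ρ a) k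
    refine (sz_le_length_mul _ (2 * sz (ys a).length) ?_).trans ?_
    · intro x hx
      obtain ⟨i, hi, rfl⟩ := List.getElem_of_mem hx
      have h3 := h2 i
      rw [List.getD_eq_getElem?_getD, List.getElem?_eq_getElem hi, Option.getD_some] at h3
      exact sz_nat_mono_le h3
    · rw [h1]
      simp only [Polynomial.eval_add, Polynomial.eval_mul, Polynomial.eval_C]
      have h3 := hr a
      have h4 := hs' a
      have : (ρ a).length * (2 * sz (ys a).length + 1) ≤
          s.eval (sz a) * (2 * r.eval (sz a) + 1) := Nat.mul_le_mul h4 (by omega)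
      omega

theorem p_blk {ls ρ : α → List ℕ} {b : α → ℕ} (hls : Poly ls) (hρ : Poly ρ)
    (hb : Poly b) : Poly (fun a => blk (ls a) (ρ a).length (b a)) := by
  unfold blk
  have h1 : Poly (fun a => ((ls a).take (b a)).sum) := Poly.sum (p_take hls hb)
  have h2 : Poly (fun a => ((ls a).take (b a + 1)).sum) := Poly.sum (p_take hls hb.succ)
  have f1 : Poly (fun x : α × ℕ => x.1) := Poly.fst Poly.id
  refine Poly.filter (p := fun a i => decide (((ls a).take (b a)).sum ≤ i) &&
    decide (i < ((ls a).take (b a + 1)).sum)) (p_rangeLen hρ) ?_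
  exact Poly.and (Poly.decide_le (h1.comp f1) (Poly.snd Poly.id))
    (Poly.decide_lt (Poly.snd Poly.id) (h2.comp f1))

theorem p_sig {ls π ρ : α → List ℕ} (hls : Poly ls) (hπ : Poly π) (hρ : Poly ρ) :
    Poly (fun a => sig (ls a) (π a) (ρ a).length) := by
  unfold sig
  have f1 : Poly (fun x : α × ℕ => x.1) := Poly.fst Poly.id
  exact Poly.flatMap (F := fun a b => blk (ls a) (ρ a).length b) hπ
    (p_blk (hls.comp f1) (hρ.comp f1) (Poly.snd Poly.id))

theorem p_cons {ls π ρ : α → List ℕ} (hls : Poly ls) (hπ : Poly π) (hρ : Poly ρ) :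
    Poly (fun a => cons (ls a) (π a) (ρ a).length) :=
  Poly.zip (p_sig hls hπ hρ) (Poly.tail (p_sig hls hπ hρ))

theorem p_valid {ls π ρ : α → List ℕ} {k : α → ℕ} (hk : Poly k) (hls : Poly ls) (hπ : Poly π)
    (hρ : Poly ρ) : Poly (fun a => valid (k a) (ls a) (π a) (ρ a)) := by
  unfold valid
  fun_prop

theorem p_test {ys rks ls π ρ : α → List ℕ} {k : α → ℕ} (hys : Poly ys)
    (hrks : Poly rks) (hk : Poly k) (hls : Poly ls) (hπ : Poly π) (hρ : Poly ρ) :
    Poly (fun a => test (ys a) (rks a) (k a) (ls a) (π a) (ρ a)) := by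
  unfold test
  have hc := p_cons hls hπ hρ
  have hf := p_fix hys hrks hc hρ
  refine Poly.and (p_valid hk hls hπ hρ) ?_
  have f1 : Poly (fun x : α × ℕ => x.1) := Poly.fst Poly.id
  refine Poly.all (p := fun a i =>
    decide ((fix (ys a) (rks a) (cons (ls a) (π a) (ρ a).length) (ρ a)).getD i 0 < (ys a).length) &&
      !viol (ys a) (rks a) (cons (ls a) (π a) (ρ a).length) (ρ a)
        (fix (ys a) (rks a) (cons (ls a) (π a) (ρ a).length) (ρ a)) i) (p_rangeLen hρ) ?_
  refine Poly.and (Poly.decide_lt (Poly.getD (hf.comp f1) (Poly.snd Poly.id) (NPC.Poly.const 0))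
    (Poly.length (hys.comp f1))) (Poly.not ?_)
  exact p_viol (hys.comp f1) (hrks.comp f1) (hc.comp f1) (hρ.comp f1) (hf.comp f1)
    (Poly.snd Poly.id)

theorem p_solve {ys : α → List ℕ} {k N : α → ℕ} (hys : Poly ys) (hk : UPoly k) (hN : UPoly N)
    (hb : ∀ a, (k a + 3) ^ (k a + 1) ≤ N a) : Poly (fun a => solve (ys a) (k a)) := by
  have hk1 : UPoly (fun a => k a + 1) := UPoly.add hk (UPoly.const 1)
  have hk2 : UPoly (fun a => k a + 2) := UPoly.add hk (UPoly.const 2)
  have hE : Poly (fun a => enum (List.range (k a + 2)) (k a + 1)) :=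
    p_enum hk2.range hk1 hN (fun a => by simpa using hb a)
  have hrk := p_ranks hys hk
  have hlv := p_levs hys hk1
  unfold solve
  refine Poly.or (Poly.not (Poly.isEmpty ?_)) ?_
  · have h1 : Poly (fun a => (levs (ys a) (k a + 1)).head?.getD []) :=
      Poly.optGetD (Poly.head? hlv) (NPC.Poly.const [])
    exact h1.congr fun a => by cases levs (ys a) (k a + 1) <;> rfl
  · have f1 : Poly (fun x : α × List ℕ => x.1) := Poly.fst Poly.id
    have f2 : Poly (fun x : (α × List ℕ) × List ℕ => x.1.1) := Poly.fst (Poly.fst Poly.id)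
    have f3 : Poly (fun x : ((α × List ℕ) × List ℕ) × List ℕ => x.1.1.1) :=
      Poly.fst (Poly.fst (Poly.fst Poly.id))
    refine Poly.any (p := fun a ls => (enum (List.range (k a + 2)) (k a + 1)).any (fun π =>
      (enum (List.range (k a + 2)) (k a + 1)).any (fun ρ =>
        test (ys a) (ranks (ys a) (k a)) (k a) ls π ρ))) hE ?_
    refine Poly.any (p := fun (x : α × List ℕ) π =>
      (enum (List.range (k x.1 + 2)) (k x.1 + 1)).any (fun ρ =>
        test (ys x.1) (ranks (ys x.1) (k x.1)) (k x.1) x.2 π ρ)) (hE.comp f1) ?_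
    refine Poly.any (p := fun (x : (α × List ℕ) × List ℕ) ρ =>
        test (ys x.1.1) (ranks (ys x.1.1) (k x.1.1)) (k x.1.1) x.1.2 x.2 ρ) (hE.comp f2) ?_
    exact p_test (hys.comp f3) (hrk.comp f3) (hk.toPoly.comp f3)
      (Poly.snd (Poly.fst (Poly.fst Poly.id))) (Poly.snd (Poly.fst Poly.id)) (Poly.snd Poly.id)

end Pool.Agent.H688R2.MSR
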